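import Pool.Agent.H550R2.Cl.Poly
import Pool.Agent.H550R2.Cl.Upper

set_option autoImplicit false

/-! Approximating the clique number within `N ^ (1 - 2 δ)` by random semidefinite programs that
are symmetric under the translations of small blocks of vertices: order at least
`2 ^ (α N ^ δ)`. -/

namespace Pool.Agent.Results.MP_71c844_lc.CliqueGapSDP

open Pool.Agent.H550R2.Lift (SDP edPerm gvec)
open Pool.Agent.H550R2.Neg (RSDP)
open Pool.Agent.H550R2.Cl (TransSym SepClique poly_lower clique_upper)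

/-- All programs are symmetric under all permutations of the vertices. -/
def FullSym {W : Type} (R : RSDP (Sym2 W)) : Prop :=
  ∀ ω, ∀ p : Equiv.Perm W, ∃ O, (R.prog ω).IsAut (edPerm p) O

/-- For every `δ` with `0 < δ < 1 / 2` there is `α > 0` such that for all large `N`:

* there are a number `M ≥ N ^ (1 - δ)` of blocks and a dimension `b` with `2 ^ b ≤ N ^ δ` and
  `M * 2 ^ b ≤ N` such that for every finite vertex set `W` and every choice `blk` of `M`
  disjoint blocks of `2 ^ b` vertices of `W`, every random semidefinite program that is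
  symmetric under the translations of the blocks and tells graphs on `W` of clique number at
  least `N ^ (1 - δ)` from graphs of clique number at most `N ^ δ`, with error at most `1 / 3`,
  has order at least `2 ^ (α N ^ δ)`;
* on every vertex set with `N` elements, this holds for all random programs that are symmetric
  under all permutations of the vertices, whereas some single program of order at most
  `(m ^ 2 + 1) N ^ m`, `m = ⌊N ^ δ⌋ + 1`, which is symmetric under all permutations of the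
  vertices accepts exactly the graphs of clique number greater than `N ^ δ`. -/
theorem result (δ : ℝ) (hδ : 0 < δ) (hδ1 : δ < 1 / 2) :
    ∃ α : ℝ, 0 < α ∧ ∃ N0 : ℕ, ∀ N : ℕ, N0 ≤ N →
      (∃ M b : ℕ, (N : ℝ) ^ (1 - δ) ≤ M ∧ (2 : ℝ) ^ b ≤ (N : ℝ) ^ δ ∧ M * 2 ^ b ≤ N ∧
        ∀ (W : Type) [Finite W] (blk : Fin M × (Fin b → ZMod 2) ↪ W) (R : RSDP (Sym2 W)),
          TransSym R blk → SepClique R ((N : ℝ) ^ (1 - δ)) ((N : ℝ) ^ δ) →
          ∀ s : ℕ, (∀ ω, Fintype.card (R.D ω) ≤ s) → (2 : ℝ) ^ (α * (N : ℝ) ^ δ) ≤ s) ∧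
      ∀ (W : Type) [Fintype W], Fintype.card W = N →
        (∀ R : RSDP (Sym2 W), FullSym R → SepClique R ((N : ℝ) ^ (1 - δ)) ((N : ℝ) ^ δ) →
          ∀ s : ℕ, (∀ ω, Fintype.card (R.D ω) ≤ s) → (2 : ℝ) ^ (α * (N : ℝ) ^ δ) ≤ s) ∧
        ∃ (D : Type) (_ : Fintype D) (_ : DecidableEq D) (P : SDP (Sym2 W) D),
          Fintype.card D ≤ ((⌊(N : ℝ) ^ δ⌋₊ + 1) ^ 2 + 1) * N ^ (⌊(N : ℝ) ^ δ⌋₊ + 1) ∧
          (∀ p : Equiv.Perm W, ∃ O, P.IsAut (edPerm p) O) ∧
          ∀ G : SimpleGraph W, P.Acc (gvec G) ↔ (N : ℝ) ^ δ < G.cliqueNum := by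
  classical
  obtain ⟨α, hα, N0, h0⟩ := poly_lower δ hδ (by linarith)
  refine ⟨α, hα, N0, fun N hN => ?_⟩
  obtain ⟨M, b, h1, h2, h3, h4⟩ := h0 N hN
  refine ⟨⟨M, b, h1, h2, h3, h4⟩, ?_⟩
  intro W _ hW
  refine ⟨?_, ?_⟩
  · intro R hR hsep s hs
    obtain ⟨blk⟩ : Nonempty (Fin M × (Fin b → ZMod 2) ↪ W) := by
      apply Function.Embedding.nonempty_of_card_le
      rw [Fintype.card_prod, Fintype.card_fin, Fintype.card_fun, ZMod.card, Fintype.card_fin, hW]
      exact h3
    exact h4 W blk R (fun ω γ => hR ω _) hsep s hs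
  · obtain ⟨D, i1, i2, P, h5, h6, h7⟩ := clique_upper W (⌊(N : ℝ) ^ δ⌋₊ + 1)
    rw [hW] at h5
    refine ⟨D, i1, i2, P, h5, h6, fun G => ?_⟩
    rw [h7, Nat.add_one_le_iff, Nat.floor_lt (by positivity)]

end Pool.Agent.Results.MP_71c844_lc.CliqueGapSDP
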