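import Pool.Agent.H564R3.SR.Main
import Pool.Agent.H564R3.SR.Upper

/-!
Coins cannot beat exhaustive search: weighted binary constraint satisfaction by randomised pure
dynamic programs.
-/

set_option autoImplicit false

namespace Pool.Agent.Results.MP_71c844_lc.ExhaustiveSearch

open Pool.Agent.H564R3.PW (Instr exec)
open Pool.Agent.H564R3.SR

/-- **Coins cannot beat exhaustive search.** (1) Randomised (min,+) programs with two-sided error
`e` and at most `T` instructions for weighted binary constraint satisfaction problems with `n` nodes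
and `q` labels. (2) Exhaustive search with three registers. -/
theorem result (n q : ℕ) (hn : 2 ≤ n) :
    (∀ (ρ : Type) [DecidableEq ρ] (Λ : Type) [Fintype Λ] (e : ℝ) (pr : Λ → ℝ)
      (p : Λ → List (Instr (Tropical (WithTop ℝ)) (Var n q) ρ)) (o : ρ), RandomMin e pr p o →
      ∀ T : ℕ, (∀ l, (p l).length ≤ T) → (1 - 2 * e) * (q : ℝ) ^ n ≤ 2 * T) ∧
    (∀ (R : Type) [CommSemiring R], ∃ (p : List (Instr R (Var n q) (Fin 3))) (o : Fin 3),
      p.length ≤ (n + 1) ^ 2 * q ^ n ∧ ∀ w : Var n q → R, exec w p o = cspSum w) := by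
  refine ⟨?_, ?_⟩
  · intro ρ _ Λ _ e pr p o h T hT
    exact random_min hn e pr p o h T hT
  · intro R _
    exact csp_upper n q (by omega)

end Pool.Agent.Results.MP_71c844_lc.ExhaustiveSearch
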