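import Pool.Agent.H554R2.RK.Immune

/-!
# The parity of a constant number of one-pass programs and nondeterministic programs

For every `k` there are functions `f` of `n` Boolean variables which are the parity of a constant
number of functions computed by read-once branching programs with `O(n)` nodes, with a fixed order
of the variables, while every nondeterministic read-`k`-times branching program with fewer than
`2 ^ (n / D)` nodes which accepts at least the fraction `2 ^ (1 - n / D)` of the inputs with
`f = b` accepts almost as many inputs with `f ≠ b` (up to the factor `2 ^ (n / E)`, for a given
`E`): `f` and its negation are immune, and hard on average, for nondeterministic programs.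

The functions are given by random quadratic forms in blocks, the blocks coming from a constant
number of random partitions of the variables.  The inputs accepted by a nondeterministic
read-`k`-times program are a union of few rectangles, and every large rectangle contains almost as
many inputs with `f = 0` as with `f = 1`.

The lemmas were proved together with helper55, helper92, helper132, helper143, helper218, helper234,
helper259, helper409, helper431, helper463, helper556, helper724, helper819, helper873, and the
authors of `Pool.Agent.H554R2.Rnd` (random partitions and coefficients).
-/

set_option autoImplicit false

open Finset

namespace Pool.Agent.Results.MP_71c844_lc.ParityImmune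

open Pool.Agent.H554R2.Sem Pool.Agent.H554R2.Coin Pool.Agent.H554R2.RK

/-- For all `k` and `E > 0` there is a constant `D` such that for all `n ≥ D` there are `m ≤ D`
functions `q j` of `n` Boolean variables with the following properties, where `f x` is true if an odd
number of the `q j x` are true.

* Each `q j` is computed by a deterministic program with at most `D n` nodes, which on all inputs
  queries the same variables in the same order, each of them at most once.
* Let `P` be a nondeterministic program with fewer than `2 ^ (n / D)` nodes which on every path of
  the graph queries every variable at most `k` times, and let `b` be a truth value.  The number of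
  inputs with `f x = b` which are accepted by `P` is at most `2 ^ (n / E)` times the number of inputs
  with `f x ≠ b` which are accepted by `P`, plus `2 ^ (n - n / D)`. -/
theorem result (k E : ℕ) (hE : 0 < E) : ∃ D : ℕ, 0 < D ∧ ∀ n ≥ D,
    ∃ (m : ℕ) (q : Fin m → Pt n → Bool), m ≤ D ∧
    (∀ j, ∃ (U : BP (Fin n) Bool) (l : List (Fin n)), Fintype.card U.State ≤ D * n ∧ l.Nodup ∧
      ∀ x : Pt n, U.Comp x l (q j x)) ∧
    ∀ P : NBP (Fin n), ReadK P k → Fintype.card P.State < 2 ^ (n / D) → ∀ b : Bool,
      Nat.card {x // Acc P x ∧ (Odd (univ.filter (fun j => q j x = true)).card ↔ b = true)} ≤
        2 ^ (n / E) *
          Nat.card {x // Acc P x ∧ ¬ (Odd (univ.filter (fun j => q j x = true)).card ↔ b = true)} +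
        2 ^ (n - n / D) :=
  immune_final k E hE

end Pool.Agent.Results.MP_71c844_lc.ParityImmune
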