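import Mathlib
import Pool.Agent.H542R2.RK.Main

/-!
Random k-CNF formulas need exponentially many lines in every refutation whose lines are arbitrary
formulas of linear size and whose inferences are arbitrary sound inferences of bounded fan-in.
-/

namespace Pool.Agent.Results.MP_71c844_lc.RandomKSat

/-- Propositional formulas over the variables `V`, of unbounded depth. -/
inductive Fml (V : Type) : Type
  | const : Bool → Fml V
  | var : V → Fml V
  | neg : Fml V → Fml V
  | and : Fml V → Fml V → Fml V
  | or : Fml V → Fml V → Fml V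

/-- Truth value of a formula. -/
def Fml.eval {V : Type} (z : V → Bool) : Fml V → Bool
  | .const b => b
  | .var v => z v
  | .neg f => !(f.eval z)
  | .and f g => f.eval z && g.eval z
  | .or f g => f.eval z || g.eval z

/-- Size of a formula: the number of occurrences of variables. -/
def Fml.size {V : Type} : Fml V → ℕ
  | .const _ => 0
  | .var _ => 1
  | .neg f => f.size
  | .and f g => f.size + g.size
  | .or f g => f.size + g.size

/-- A clause with `k` literals over `N` variables: a sequence of `k` literals; the literal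
`(x, s)` says that the variable `x` has the value `s`. -/
abbrev Clause (k N : ℕ) := Fin k → Fin N × Bool

/-- The assignment `z` satisfies the clause. -/
def Clause.Holds {k N : ℕ} (z : Fin N → Bool) (c : Clause k N) : Prop := ∃ i, z (c i).1 = (c i).2

/-- A `k`-CNF formula over `N` variables with `m` clauses. -/
abbrev KCNF (k N m : ℕ) := Fin m → Clause k N

/-- A refutation of the CNF `φ` with `S` lines, each of which is a formula of size at most `s`.
Every line is implied by a clause of `φ` or by at most `a` earlier lines, and some line is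
unsatisfiable. -/
structure Refutation {k N m : ℕ} (φ : KCNF k N m) (a s S : ℕ) where
  line : Fin S → Fml (Fin N)
  size_le : ∀ j, (line j).size ≤ s
  sound : ∀ j, (∃ i, ∀ z, (φ i).Holds z → (line j).eval z = true) ∨
    ∃ P : Finset (Fin S), P.card ≤ a ∧ (∀ p ∈ P, p < j) ∧
      ∀ z, (∀ p ∈ P, (line p).eval z = true) → (line j).eval z = true
  final : ∃ j, ∀ z, (line j).eval z = false

open H542 Finset

/-- negation normal form, constants eliminated; the flag `s` is the sign -/
def conv {V : Type} (s : Bool) : Fml V → T V ⊕ Bool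
  | .const b => .inr (b == s)
  | .var v => .inl (.lit v s)
  | .neg f => conv (!s) f
  | .and f g => comb s (conv s f) (conv s g)
  | .or f g => comb (!s) (conv s f) (conv s g)

theorem evs_conv {V : Type} (z : V → Bool) (s : Bool) (f : Fml V) :
    evs z (conv s f) = (f.eval z == s) := by
  induction f generalizing s with
  | const b => rfl
  | var v => rfl
  | neg f ih =>
    simp only [conv, Fml.eval, ih]
    cases f.eval z <;> cases s <;> rfl
  | and f g ihf ihg =>
    simp only [conv, Fml.eval, evs_comb, ihf, ihg]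
    cases f.eval z <;> cases g.eval z <;> cases s <;> rfl
  | or f g ihf ihg =>
    simp only [conv, Fml.eval, evs_comb, ihf, ihg]
    cases f.eval z <;> cases g.eval z <;> cases s <;> rfl

theorem leavess_conv {V : Type} (s : Bool) (f : Fml V) : leavess (conv s f) ≤ f.size := by
  induction f generalizing s with
  | const b => simp [conv, leavess]
  | var v => simp [conv, leavess, T.leaves, Fml.size]
  | neg f ih => exact ih (!s)
  | and f g ihf ihg =>
    exact (leavess_comb _ _ _).trans (add_le_add (ihf s) (ihg s))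
  | or f g ihf ihg =>
    exact (leavess_comb _ _ _).trans (add_le_add (ihf s) (ihg s))

theorem short_of_refutation {k N m : ℕ} (φ : KCNF k N m) (a s S : ℕ) (c : ℝ)
    (hS : (S : ℝ) < 2 ^ (c * N)) (h : Nonempty (Refutation φ a s S)) : RK.Short a s c φ := by
  obtain ⟨π⟩ := h
  refine ⟨S, fun j => conv true (π.line j), hS, fun j =>
    (leavess_conv _ _).trans (π.size_le j), fun j => ?_, ?_⟩
  · rcases π.sound j with ⟨i, hi⟩ | ⟨P, hP1, hP2, hP3⟩
    · left
      refine ⟨i, fun z hz => ?_⟩
      rw [evs_conv, hi z hz]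
      rfl
    · right
      refine ⟨P, hP1, hP2, fun z hz => ?_⟩
      have h1 : ∀ p ∈ P, (π.line p).eval z = true := by
        intro p hp
        have := hz p hp
        rw [evs_conv] at this
        simpa using this
      rw [evs_conv, hP3 z h1]
      rfl
  · obtain ⟨j, hj⟩ := π.final
    refine ⟨j, fun z => ?_⟩
    rw [evs_conv, hj z]
    rfl

/-- For every fan-in `a` and constant `C` there is `c > 0` such that for every `K` and all large
`k`: with probability tending to 1 as `N → ∞`, uniformly in `m ≤ K * 2 ^ k * N`, a random `k`-CNF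
with `m` clauses over `N` variables has no refutation with fewer than `2 ^ (c * N)` lines of size
at most `C * N`, and it is unsatisfiable if `m ≥ 2 ^ k * N`. -/
theorem result (a C : ℕ) : ∃ c : ℝ, 0 < c ∧ ∀ K : ℕ, ∃ k0 : ℕ, ∀ k ≥ k0, ∀ ε : ℝ, 0 < ε →
    ∃ N0 : ℕ, ∀ N ≥ N0, ∀ m ≤ K * 2 ^ k * N,
      ({φ : KCNF k N m | ∃ S : ℕ, (S : ℝ) < 2 ^ (c * N) ∧
          Nonempty (Refutation φ a (C * N) S)}.ncard : ℝ) ≤
        ε * Fintype.card (KCNF k N m) ∧
      (2 ^ k * N ≤ m → ({φ : KCNF k N m | ∃ z, ∀ i, (φ i).Holds z}.ncard : ℝ) ≤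
        ε * Fintype.card (KCNF k N m)) := by
  classical
  obtain ⟨c, hc, hmain⟩ := RK.main a C
  refine ⟨c, hc, fun K => ?_⟩
  obtain ⟨k0, hk0⟩ := hmain K
  refine ⟨k0, fun k hk ε hε => ?_⟩
  obtain ⟨N1, hN1⟩ := hk0 k hk ε hε
  obtain ⟨N2, hN2⟩ := RK.unsat k ε hε
  refine ⟨max N1 N2, fun N hN m hm => ⟨?_, fun hm2 => ?_⟩⟩
  · refine le_trans ?_ (hN1 N ((le_max_left _ _).trans hN) m hm)
    rw [Set.ncard_eq_toFinset_card']
    have h : ({φ : KCNF k N m | ∃ S : ℕ, (S : ℝ) < 2 ^ (c * N) ∧
        Nonempty (Refutation φ a (C * N) S)} : Set (KCNF k N m)).toFinset ⊆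
        univ.filter fun φ : Fin m → RK.Cl k N => RK.Short a (C * N) c φ := by
      intro φ hφ
      rw [Set.mem_toFinset] at hφ
      obtain ⟨S, hS, hR⟩ := hφ
      rw [mem_filter]
      exact ⟨mem_univ _, short_of_refutation φ a (C * N) S c hS hR⟩
    exact_mod_cast card_le_card h
  · refine le_trans ?_ (hN2 N ((le_max_right _ _).trans hN) m hm2)
    rw [Set.ncard_eq_toFinset_card']
    have h : ({φ : KCNF k N m | ∃ z, ∀ i, (φ i).Holds z} : Set (KCNF k N m)).toFinset ⊆
        univ.filter fun φ : Fin m → RK.Cl k N => ∃ z : Fin N → Bool, ∀ c, ∃ i,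
          z (φ c i).1 = (φ c i).2 := by
      intro φ hφ
      rw [Set.mem_toFinset] at hφ
      obtain ⟨z, hz⟩ := hφ
      rw [mem_filter]
      exact ⟨mem_univ _, z, hz⟩
    exact_mod_cast card_le_card h

end Pool.Agent.Results.MP_71c844_lc.RandomKSat
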